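import Pool.Agent.MP_993212_an.H46.Spec

/-! The final assembly: coding of the certificates. -/

namespace Pool.Agent.MP_993212_an.H34

open Matrix H16 H46
open H12 (LL ent toM sm mulE pw chain lists ofM pow_inter sm_eq mulE_eq ent_pw toM_ofM ofM_len
  mem_lists chain_sound chain_complete sse_iff SSE)

section Pred

variable {α β : Type} [Primcodable α] [Primcodable β]

theorem D.imp {p q : α → Prop} (hp : PrimrecPred p) (hq : PrimrecPred q) :
    PrimrecPred fun a => p a → q a := (hp.not.or hq).of_eq fun _ => imp_iff_not_or.symm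

theorem D.iff {p q : α → Prop} (hp : PrimrecPred p) (hq : PrimrecPred q) :
    PrimrecPred fun a => (p a ↔ q a) :=
  ((D.imp hp hq).and (D.imp hq hp)).of_eq fun _ => iff_iff_implies_and_implies.symm

theorem D.allMem {l : α → List β} {p : α → β → Prop} (hl : Primrec l)
    (hp : PrimrecPred fun x : α × β => p x.1 x.2) : PrimrecPred fun a => ∀ b ∈ l a, p a b :=
  (PrimrecRel.forall_mem_list (R := fun b a => p a b) (PrimrecRel.swap hp)).comp hl Primrec.id

theorem D.exMem {l : α → List β} {p : α → β → Prop} (hl : Primrec l)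
    (hp : PrimrecPred fun x : α × β => p x.1 x.2) : PrimrecPred fun a => ∃ b ∈ l a, p a b :=
  (PrimrecRel.exists_mem_list (R := fun b a => p a b) (PrimrecRel.swap hp)).comp hl Primrec.id

theorem D.allLt {n : α → ℕ} {p : α → ℕ → Prop} (hn : Primrec n)
    (hp : PrimrecPred fun x : α × ℕ => p x.1 x.2) : PrimrecPred fun a => ∀ i < n a, p a i :=
  (D.allMem (Primrec.list_range.comp hn) hp).of_eq fun _ => by simp

theorem D.exLt {n : α → ℕ} {p : α → ℕ → Prop} (hn : Primrec n)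
    (hp : PrimrecPred fun x : α × ℕ => p x.1 x.2) : PrimrecPred fun a => ∃ i < n a, p a i :=
  (D.exMem (Primrec.list_range.comp hn) hp).of_eq fun _ => by simp

theorem D.eq {f g : α → β} (hf : Primrec f) (hg : Primrec g) : PrimrecPred fun a => f a = g a :=
  Primrec.eq.comp hf hg

theorem D.ne {f g : α → β} (hf : Primrec f) (hg : Primrec g) : PrimrecPred fun a => f a ≠ g a :=
  (D.eq hf hg).not

theorem D.le {f g : α → ℕ} (hf : Primrec f) (hg : Primrec g) : PrimrecPred fun a => f a ≤ g a :=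
  Primrec.nat_le.comp hf hg

theorem D.lt {f g : α → ℕ} (hf : Primrec f) (hg : Primrec g) : PrimrecPred fun a => f a < g a :=
  Primrec.nat_lt.comp hf hg

theorem D.dvd {f g : α → ℕ} (hf : Primrec f) (hg : Primrec g) : PrimrecPred fun a => f a ∣ g a :=
  (D.eq (Primrec.nat_mod.comp hg hf) (Primrec.const 0)).of_eq fun _ =>
    (Nat.dvd_iff_mod_eq_zero ..).symm

@[fun_prop] theorem P.product {γ : Type} [Primcodable γ] {f : α → List β} {g : α → List γ}
    (hf : Primrec f) (hg : Primrec g) : Primrec fun a => (f a).product (g a) :=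
  Primrec.list_flatMap hf (Primrec.list_map (hg.comp Primrec.fst)
    ((Primrec.snd.comp Primrec.fst).pair Primrec.snd))

theorem decide_of {γ : Type} [Primcodable γ] [Inhabited β] [Inhabited γ] {p : α → Prop}
    {y : α → β → Prop} {n : α → γ → Prop} (hy : PrimrecPred fun x : α × β => y x.1 x.2)
    (hn : PrimrecPred fun x : α × γ => n x.1 x.2) (h1 : ∀ a, p a ↔ ∃ b, y a b)
    (h2 : ∀ a, ¬ p a ↔ ∃ c, n a c) : ComputablePred p := by
  classical
  have h3 : PrimrecPred fun x : α × β × γ => y x.1 x.2.1 ∨ n x.1 x.2.2 :=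
    (hy.comp (f := fun x : α × β × γ => (x.1, x.2.1)) (by fun_prop)).or
      (hn.comp (f := fun x : α × β × γ => (x.1, x.2.2)) (by fun_prop))
  obtain ⟨f, hf, hc⟩ := Pool.Agent.MP_c1eef4_lc.H62.C.search
    (p := fun a (c : β × γ) => decide (y a c.1 ∨ n a c.2)) h3.decide.to_comp fun a => by
      by_cases h : p a
      · obtain ⟨b, hb⟩ := (h1 a).1 h
        exact ⟨(b, default), by simp [hb]⟩
      · obtain ⟨c, hc⟩ := (h2 a).1 h
        exact ⟨(default, c), by simp [hc]⟩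
  rw [ComputablePred.computable_iff]
  refine ⟨fun a => decide (y a (f a).1), hy.decide.to_comp.comp
    (Computable.id.pair (Computable.fst.comp hf)), funext fun a => propext ?_⟩
  simp only [decide_eq_true_eq]
  refine ⟨fun h => ?_, fun h => (h1 a).2 ⟨_, h⟩⟩
  exact (of_decide_eq_true (hc a)).resolve_right fun h' => (h2 a).2 ⟨_, h'⟩ h

theorem fin_choice {β δ : Type} (L : List β) (Q : β → δ → Prop) (h : ∀ b ∈ L, ∃ d, Q b d) :
    ∃ c : List δ, ∀ b ∈ L, ∃ d ∈ c, Q b d := by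
  induction L with
  | nil => exact ⟨[], by simp⟩
  | cons b L ih =>
    obtain ⟨c, hc⟩ := ih fun x hx => h x (List.mem_cons_of_mem _ hx)
    obtain ⟨d, hd⟩ := h b List.mem_cons_self
    refine ⟨d :: c, fun x hx => ?_⟩
    rcases List.mem_cons.1 hx with rfl | hx
    · exact ⟨d, List.mem_cons_self, hd⟩
    · obtain ⟨e, he, h'⟩ := hc x hx
      exact ⟨e, List.mem_cons_of_mem _ he, h'⟩

end Pred

section Block

variable {U V W U' V' W' : Type} [Fintype V] [Fintype V']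

theorem sub_mul (M : Matrix U V ℤ) (N : Matrix V W ℤ) {x : U → ℕ} {y : V → ℕ} {z : W → ℕ} {c : ℕ}
    {f : U' → U} {g : V' → V} {h : W' → W} (hM : ∀ u v, M u v ≠ 0 → x u ≤ y v)
    (hN : ∀ u v, N u v ≠ 0 → y u ≤ z v) (hf : ∀ u, x u = c ↔ ∃ i, f i = u)
    (hg : ∀ u, y u = c ↔ ∃ i, g i = u) (hh : ∀ u, z u = c ↔ ∃ i, h i = u)
    (hi : Function.Injective g) :
    (M * N).submatrix f h = M.submatrix f g * N.submatrix g h := by
  ext i k
  simp only [submatrix_apply, mul_apply]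
  refine (Finset.sum_of_injOn g hi.injOn (by simp) (fun v _ hv => ?_) fun _ _ => rfl).symm
  by_contra h0
  have h1 := hM _ _ (left_ne_zero_of_mul h0)
  have h2 := hN _ _ (right_ne_zero_of_mul h0)
  rw [(hf _).2 ⟨i, rfl⟩] at h1
  rw [(hh _).2 ⟨k, rfl⟩] at h2
  obtain ⟨j, rfl⟩ := (hg v).1 (le_antisymm h2 h1)
  exact hv ⟨j, by simp, rfl⟩

theorem sub_pow [DecidableEq V] [DecidableEq V'] (M : Matrix V V ℤ) {y : V → ℕ} {c : ℕ}
    {g : V' → V} (hM : ∀ u v, M u v ≠ 0 → y u ≤ y v) (hg : ∀ u, y u = c ↔ ∃ i, g i = u)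
    (hi : Function.Injective g) (k : ℕ) : (∀ u v, (M ^ k) u v ≠ 0 → y u ≤ y v) ∧
    (M ^ k).submatrix g g = M.submatrix g g ^ k := by
  induction k with
  | zero =>
    refine ⟨fun u v h => ?_, by simp [submatrix_one _ hi]⟩
    rw [pow_zero] at h
    rw [show u = v from by_contra fun e => h (one_apply_ne e)]
  | succ k ih =>
    refine ⟨fun u v h => ?_, by rw [pow_succ, pow_succ, sub_mul _ _ ih.1 hM hg hg hg hi, ih.2]⟩
    rw [pow_succ, mul_apply] at h
    obtain ⟨w, -, h⟩ := Finset.exists_ne_zero_of_sum_ne_zero h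
    exact (ih.1 _ _ (left_ne_zero_of_mul h)).trans (hM _ _ (right_ne_zero_of_mul h))

theorem zse_blk [DecidableEq V] [DecidableEq V'] [Fintype W] [DecidableEq W] [Fintype W']
    [DecidableEq W'] {A : Matrix V V ℕ} {B : Matrix W W ℕ} {R : Matrix V W ℤ} {S : Matrix W V ℤ}
    {k q : ℕ} {f : V' → V} {g : W' → W} (h : ZSE A B R S (q * k)) (hb : Blk A B R S q f g) :
    ZSE ((A ^ q).submatrix f f) ((B ^ q).submatrix g g) (R.submatrix f g) (S.submatrix g f) k := by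
  obtain ⟨h1, h2, h3, h4⟩ := h
  obtain ⟨hf, hg, -, -, x, y, c, ⟨l1, l2, l3, l4⟩, hx, hy⟩ := hb
  have a1 : ∀ u v, zz (A ^ q) u v ≠ 0 → x u ≤ x v := fun u v h =>
    l1 u v (by simpa [zz_apply] using h)
  have a2 : ∀ u v, zz (B ^ q) u v ≠ 0 → y u ≤ y v := fun u v h =>
    l2 u v (by simpa [zz_apply] using h)
  refine ⟨?_, ?_, ?_, ?_⟩
  · change (zz (A ^ q)).submatrix f f * _ = _ * (zz (B ^ q)).submatrix g g
    rw [← sub_mul _ _ a1 l3 hx hx hy hf, ← sub_mul _ _ l3 a2 hx hy hy hg, zz_pow, zz_pow,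
      pow_inter h1]
  · change _ * (zz (A ^ q)).submatrix f f = (zz (B ^ q)).submatrix g g * _
    rw [← sub_mul _ _ l4 a1 hy hx hx hf, ← sub_mul _ _ a2 l4 hy hy hx hg, zz_pow, zz_pow,
      pow_inter h2.symm]
  · change _ = (zz (A ^ q)).submatrix f f ^ k
    rw [← sub_mul _ _ l3 l4 hx hy hx hg, ← (sub_pow _ a1 hx hf k).2, h3, zz_pow, pow_mul]
  · change _ = (zz (B ^ q)).submatrix g g ^ k
    rw [← sub_mul _ _ l4 l3 hy hx hy hf, ← (sub_pow _ a2 hy hg k).2, h4, zz_pow, pow_mul]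

end Block

/-! Coded conditions -/

/-- the square matrix coded by a list -/
abbrev sq (A : LL) : Matrix (Fin A.length) (Fin A.length) ℕ := toM A.length A.length A

def Z1 (A B : LL) (r : LL × LL) : Prop := ∀ i < A.length, ∀ j < B.length,
  mulE A.length A r.1 i j + mulE B.length r.2 B i j =
    mulE A.length A r.2 i j + mulE B.length r.1 B i j

def Z2 (A B : LL) (r s : LL × LL) (l : ℕ) : Prop := ∀ i < A.length, ∀ j < A.length,
  mulE B.length r.1 s.1 i j + mulE B.length r.2 s.2 i j =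
    ent (pw A l) i j + (mulE B.length r.1 s.2 i j + mulE B.length r.2 s.1 i j)

def Pt (A B : LL) (r s : LL × LL) (l i : ℕ) : Prop :=
  ∀ u < A.length, ∀ v < A.length, ∀ k < B.length, ∀ k' < B.length, ent r.1 u k ≠ ent r.2 u k →
    ent (pw B i) k k' ≠ 0 → ent s.1 k' v ≠ ent s.2 k' v → ent (pw A (l + i)) u v ≠ 0

def H1 (A : LL) (q : ℕ) (D : LL) (f x : List ℕ) (c e : ℕ) : Prop :=
  (∀ i < D.length, ∀ j < D.length, f.getD i 0 = f.getD j 0 → i = j) ∧
  (∀ i < D.length, ∀ j < D.length, ent D i j = ent (pw A q) (f.getD i 0) (f.getD j 0)) ∧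
  (∀ i < D.length, ∀ j < D.length, 0 < ent (pw D e) i j) ∧
  (∀ u < A.length, ∀ v < A.length, ent (pw A q) u v ≠ 0 → x.getD u 0 ≤ x.getD v 0) ∧
  ∀ u < A.length, (x.getD u 0 = c ↔ ∃ i < D.length, f.getD i 0 = u)

def H2 (n m : ℕ) (r : LL × LL) (x y : List ℕ) : Prop :=
  ∀ u < n, ∀ v < m, ent r.1 u v ≠ ent r.2 u v → x.getD u 0 ≤ y.getD v 0

def H3 (a b : ℕ) (r t : LL × LL) (f g : List ℕ) : Prop :=
  ∀ i < a, ∀ j < b, ent t.1 i j = ent r.1 (f.getD i 0) (g.getD j 0) ∧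
    ent t.2 i j = ent r.2 (f.getD i 0) (g.getD j 0)

def H4 (a n : ℕ) (f : List ℕ) : Prop := 0 < a ∧ ∀ i < a, f.getD i 0 < n

abbrev Cand := (LL × LL) × (LL × LL) × ℕ

abbrev Dat := (ℕ × ℕ × ℕ × ℕ × ℕ) × (LL × LL × LL × LL) × List ℕ × List ℕ × List ℕ × List ℕ

/-- the data of a primitive block that is not realised -/
def Bad (chk : (LL × LL × LL × LL) × ℕ → Bool) (A B : LL) (r s : LL × LL) (l q c e e' w : ℕ)
    (D E : LL) (t : LL × LL) (f g x y : List ℕ) : Prop :=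
  1 ≤ q ∧ q ∣ l ∧ 1 ≤ e ∧ 1 ≤ e' ∧ H4 D.length A.length f ∧ H4 E.length B.length g ∧
    H1 A q D f x c e ∧ H1 B q E g y c e' ∧ H2 A.length B.length r x y ∧
    H2 B.length A.length s y x ∧ H3 D.length E.length r t f g ∧ chk ((D, E, t), w) = true

/-- `d` refutes the candidate `k` -/
def Ref (chk : (LL × LL × LL × LL) × ℕ → Bool) (A B : LL) (k : Cand) (d : Dat) : Prop :=
  ¬ (Z1 A B k.1 ∧ Z1 B A k.2.1 ∧ Z2 A B k.1 k.2.1 k.2.2 ∧ Z2 B A k.2.1 k.1 k.2.2 ∧ 1 ≤ k.2.2 ∧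
      A.length.factorial ∣ k.2.2) ∨
    ¬ (Pt A B k.1 k.2.1 k.2.2 d.1.1 ∧ Pt B A k.2.1 k.1 k.2.2 d.1.1) ∨
    Bad chk A B k.1 k.2.1 k.2.2 d.1.1 d.1.2.1 d.1.2.2.1 d.1.2.2.2.1 d.1.2.2.2.2 d.2.1.1 d.2.1.2.1
      d.2.1.2.2 d.2.2.1 d.2.2.2.1 d.2.2.2.2.1 d.2.2.2.2.2

def mats (n m G : ℕ) : List LL := lists n (lists m (List.range (G + 1)))

def szL (A : LL) : ℕ := sm A.length fun i => sm A.length fun j => ent A i j

def cands (n m G : ℕ) : List Cand := ((mats n m G).product (mats n m G)).product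
  (((mats m n G).product (mats m n G)).product (List.range (G + 1)))

section Prim

variable {α : Type} [Primcodable α] {A B C : α → LL} {r s : α → LL × LL} {l i q c e : α → ℕ}
  {f g x y : α → List ℕ}

theorem D.z1 (hA : Primrec A) (hB : Primrec B) (hr : Primrec r) :
    PrimrecPred fun a => Z1 (A a) (B a) (r a) :=
  D.allLt (by fun_prop) (D.allLt (by fun_prop) (D.eq (by fun_prop) (by fun_prop)))

theorem D.z2 (hA : Primrec A) (hB : Primrec B) (hr : Primrec r) (hs : Primrec s) (hl : Primrec l) :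
    PrimrecPred fun a => Z2 (A a) (B a) (r a) (s a) (l a) :=
  D.allLt (by fun_prop) (D.allLt (by fun_prop) (D.eq (by fun_prop) (by fun_prop)))

theorem D.pt (hA : Primrec A) (hB : Primrec B) (hr : Primrec r) (hs : Primrec s) (hl : Primrec l)
    (hi : Primrec i) : PrimrecPred fun a => Pt (A a) (B a) (r a) (s a) (l a) (i a) :=
  D.allLt (by fun_prop) (D.allLt (by fun_prop) (D.allLt (by fun_prop) (D.allLt (by fun_prop)
    (D.imp (D.ne (by fun_prop) (by fun_prop)) (D.imp (D.ne (by fun_prop) (by fun_prop))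
    (D.imp (D.ne (by fun_prop) (by fun_prop)) (D.ne (by fun_prop) (by fun_prop))))))))

theorem D.h1 (hA : Primrec A) (hq : Primrec q) (hD : Primrec C) (hf : Primrec f) (hx : Primrec x)
    (hc : Primrec c) (he : Primrec e) :
    PrimrecPred fun a => H1 (A a) (q a) (C a) (f a) (x a) (c a) (e a) := by
  refine .and ?_ (.and ?_ (.and ?_ (.and ?_ ?_)))
  · exact D.allLt (by fun_prop) (D.allLt (by fun_prop) (D.imp (D.eq (by fun_prop) (by fun_prop))
      (D.eq (by fun_prop) (by fun_prop))))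
  · exact D.allLt (by fun_prop) (D.allLt (by fun_prop) (D.eq (by fun_prop) (by fun_prop)))
  · exact D.allLt (by fun_prop) (D.allLt (by fun_prop) (D.lt (by fun_prop) (by fun_prop)))
  · exact D.allLt (by fun_prop) (D.allLt (by fun_prop) (D.imp (D.ne (by fun_prop) (by fun_prop))
      (D.le (by fun_prop) (by fun_prop))))
  · exact D.allLt (by fun_prop) (D.iff (D.eq (by fun_prop) (by fun_prop))
      (D.exLt (by fun_prop) (D.eq (by fun_prop) (by fun_prop))))

theorem D.h2 (hl : Primrec l) (hq : Primrec q) (hr : Primrec r) (hx : Primrec x) (hy : Primrec y) :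
    PrimrecPred fun a => H2 (l a) (q a) (r a) (x a) (y a) :=
  D.allLt (by fun_prop) (D.allLt (by fun_prop) (D.imp (D.ne (by fun_prop) (by fun_prop))
    (D.le (by fun_prop) (by fun_prop))))

theorem D.h3 (hl : Primrec l) (hq : Primrec q) (hr : Primrec r) (hs : Primrec s) (hx : Primrec x)
    (hy : Primrec y) : PrimrecPred fun a => H3 (l a) (q a) (r a) (s a) (x a) (y a) :=
  D.allLt (by fun_prop) (D.allLt (by fun_prop) (.and (D.eq (by fun_prop) (by fun_prop))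
    (D.eq (by fun_prop) (by fun_prop))))

theorem D.h4 (hl : Primrec l) (hq : Primrec q) (hx : Primrec x) :
    PrimrecPred fun a => H4 (l a) (q a) (x a) :=
  .and (D.lt (by fun_prop) hl) (D.allLt (by fun_prop) (D.lt (by fun_prop) (by fun_prop)))

theorem D.ref {chk : (LL × LL × LL × LL) × ℕ → Bool} (h : Primrec chk) {k : α → Cand}
    {d : α → Dat} (hA : Primrec A) (hB : Primrec B) (hk : Primrec k) (hd : Primrec d) :
    PrimrecPred fun a => Ref chk (A a) (B a) (k a) (d a) := by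
  refine .or (.not (.and ?_ (.and ?_ (.and ?_ (.and ?_ (.and ?_ ?_)))))) (.or (.not (.and ?_ ?_))
    (.and ?_ (.and ?_ (.and ?_ (.and ?_ (.and ?_ (.and ?_ (.and ?_ (.and ?_ (.and ?_ (.and ?_
      (.and ?_ ?_))))))))))))
  · apply D.z1 <;> fun_prop
  · apply D.z1 <;> fun_prop
  · apply D.z2 <;> fun_prop
  · apply D.z2 <;> fun_prop
  · apply D.le <;> fun_prop
  · exact D.dvd (primrec_factorial.comp (by fun_prop)) (by fun_prop)
  · apply D.pt <;> fun_prop
  · apply D.pt <;> fun_prop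
  · apply D.le <;> fun_prop
  · apply D.dvd <;> fun_prop
  · apply D.le <;> fun_prop
  · apply D.le <;> fun_prop
  · apply D.h4 <;> fun_prop
  · apply D.h4 <;> fun_prop
  · apply D.h1 <;> fun_prop
  · apply D.h1 <;> fun_prop
  · apply D.h2 <;> fun_prop
  · apply D.h2 <;> fun_prop
  · apply D.h3 <;> fun_prop
  · exact D.eq (h.comp (by fun_prop)) (by fun_prop)

@[fun_prop] theorem P.mats (hl : Primrec l) (hq : Primrec q) (hc : Primrec c) :
    Primrec fun a => mats (l a) (q a) (c a) := by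
  unfold H34.mats; fun_prop

@[fun_prop] theorem P.szL (hA : Primrec A) : Primrec fun a => szL (A a) := by
  unfold H34.szL; fun_prop

theorem P.cands (hl : Primrec l) (hq : Primrec q) (hc : Primrec c) :
    Primrec fun a => cands (l a) (q a) (c a) := by
  unfold H34.cands; fun_prop

end Prim

theorem all_lt {n : ℕ} {p : ℕ → Prop} : (∀ i < n, p i) ↔ ∀ i : Fin n, p i :=
  ⟨fun h i => h i i.2, fun h i hi => h ⟨i, hi⟩⟩

theorem ex_lt {n : ℕ} {p : ℕ → Prop} : (∃ i < n, p i) ↔ ∃ i : Fin n, p i :=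
  ⟨fun ⟨i, hi, h⟩ => ⟨⟨i, hi⟩, h⟩, fun ⟨i, h⟩ => ⟨i, i.2, h⟩⟩

theorem zz_add {n m : Type} (X Y : Matrix n m ℕ) : zz (X + Y) = zz X + zz Y := by
  ext i j; simp [zz_apply]

theorem zM_ne {n m : ℕ} (r : LL × LL) (u : Fin n) (v : Fin m) :
    zM n m r u v ≠ 0 ↔ ent r.1 u v ≠ ent r.2 u v := by
  simp [zM, zz_apply, toM, sub_eq_zero]

theorem z1_iff (A B : LL) (r : LL × LL) : Z1 A B r ↔
    zz (sq A) * zM A.length B.length r = zM A.length B.length r * zz (sq B) := by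
  rw [zM, Matrix.mul_sub, Matrix.sub_mul, sub_eq_sub_iff_add_eq_add, add_comm (_ * zz (sq B))]
  simp only [← zz_mul, ← zz_add, Z1, all_lt, mulE_eq]
  exact ⟨fun h => congrArg zz (Matrix.ext h), fun h i j => congrFun (congrFun (zz_inj h) i) j⟩

theorem z2_iff (A B : LL) (r s : LL × LL) (l : ℕ) : Z2 A B r s l ↔
    zM A.length B.length r * zM B.length A.length s = zz (sq A) ^ l := by
  rw [zM, zM, Matrix.mul_sub, Matrix.sub_mul, Matrix.sub_mul,
    show ∀ a b c d : Matrix _ _ ℤ, a - b - (c - d) = a + d - (c + b) from fun _ _ _ _ => by abel,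
    sub_eq_iff_eq_add]
  simp only [← zz_mul, ← zz_add, ← zz_pow, Z2, all_lt, mulE_eq, ent_pw]
  exact ⟨fun h => congrArg zz (Matrix.ext h), fun h i j => congrFun (congrFun (zz_inj h) i) j⟩

theorem zse_iff (A B : LL) (r s : LL × LL) (l : ℕ) :
    ZSE (sq A) (sq B) (zM _ _ r) (zM _ _ s) l ↔
      Z1 A B r ∧ Z1 B A s ∧ Z2 A B r s l ∧ Z2 B A s r l := by
  rw [z1_iff, z1_iff, z2_iff, z2_iff, ZSE, eq_comm (a := zM _ _ s * _)]

theorem pt_iff (A B : LL) (r s : LL × LL) (l i : ℕ) : Pt A B r s l i ↔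
    ∀ u v, (ab (zM A.length B.length r) * sq B ^ i * ab (zM B.length A.length s)) u v ≠ 0 →
      (sq A ^ (l + i)) u v ≠ 0 := by
  simp only [Pt, all_lt, ent_pw, ← zM_ne, mul_apply, ne_eq, Finset.sum_eq_zero_iff, mul_eq_zero, ab,
    map_apply, Int.natAbs_eq_zero, Finset.mem_univ, true_imp_iff]
  refine forall₂_congr fun u v => ⟨fun h h1 h2 => h1 fun k' => ?_, fun h k k' h1 h2 h3 => h ?_⟩
  · by_contra h3
    rw [not_or, not_forall] at h3
    obtain ⟨⟨k, h3⟩, h4⟩ := h3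
    rw [not_or] at h3
    exact h k k' h3.1 h3.2 h4 h2
  · exact fun h4 => (h4 k').elim (fun h5 => (h5 k).elim h1 h2) h3

theorem h1_iff {A D : LL} {q c e : ℕ} {f x : List ℕ} {f' : Fin D.length → Fin A.length}
    {x' : Fin A.length → ℕ} (hf : ∀ i : Fin _, f.getD i 0 = f' i)
    (hx : ∀ i : Fin _, x.getD i 0 = x' i) : H1 A q D f x c e ↔
    Function.Injective f' ∧ sq D = (sq A ^ q).submatrix f' f' ∧ (∀ i j, 0 < (sq D ^ e) i j) ∧
      (∀ u v, (sq A ^ q) u v ≠ 0 → x' u ≤ x' v) ∧ ∀ u, x' u = c ↔ ∃ i, f' i = u := by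
  simp only [H1, all_lt, ex_lt, hf, hx, ent_pw, Fin.val_inj, ← Matrix.ext_iff]
  exact and_congr ⟨fun h i j => h i j, fun h i j e => h e⟩ Iff.rfl

theorem h2_iff {n m : ℕ} {r : LL × LL} {x y : List ℕ} {x' : Fin n → ℕ} {y' : Fin m → ℕ}
    (hx : ∀ i : Fin _, x.getD i 0 = x' i) (hy : ∀ i : Fin _, y.getD i 0 = y' i) :
    H2 n m r x y ↔ ∀ u v, zM n m r u v ≠ 0 → x' u ≤ y' v := by
  simp only [H2, all_lt, hx, hy, zM_ne]

theorem h3_iff {a b n m : ℕ} {r t : LL × LL} {f g : List ℕ} {f' : Fin a → Fin n}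
    {g' : Fin b → Fin m} (hf : ∀ i : Fin _, f.getD i 0 = f' i)
    (hg : ∀ i : Fin _, g.getD i 0 = g' i) : H3 a b r t f g ↔
    toM a b t.1 = (toM n m r.1).submatrix f' g' ∧ toM a b t.2 = (toM n m r.2).submatrix f' g' := by
  simp only [H3, all_lt, hf, hg, ← Matrix.ext_iff, forall_and]
  rfl

theorem getD_ofFn {n : ℕ} (x : Fin n → ℕ) (i : Fin n) : (List.ofFn x).getD i 0 = x i := by
  simp [List.getD_eq_getElem?_getD]

/-- the defining property of the certificate checker -/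
def Chk (chk : (LL × LL × LL × LL) × ℕ → Bool) : Prop :=
  ∀ (D E : LL) (r : LL × LL) (S : Matrix (Fin E.length) (Fin D.length) ℤ) (l : ℕ),
    0 < D.length → 0 < E.length → Prim (sq D) → Prim (sq E) →
    ZSE (sq D) (sq E) (zM D.length E.length r) S l →
    (¬ Real (sq D) (sq E) (zM D.length E.length r) ↔ ∃ w, chk ((D, E, r), w) = true)

variable {chk : (LL × LL × LL × LL) × ℕ → Bool}

theorem sound (h1 : B1) (hc : Chk chk) {A B : LL} {r s : LL × LL} {l : ℕ} {d : Dat}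
    (hz : ZSE (sq A) (sq B) (zM _ _ r) (zM _ _ s) l) (hl : 1 ≤ l) (hn : A.length.factorial ∣ l)
    (hp : Pat (sq A) (sq B) (zM _ _ r) (zM _ _ s) l) (hr : Real (sq A) (sq B) (zM _ _ r)) :
    ¬ Ref chk A B (r, s, l) d := by
  obtain ⟨⟨q, c, e, e', w⟩, ⟨D, E, t⟩, f, g, x, y⟩ := d
  rintro (h | h | ⟨a1, a2, a3, a4, a5, a6, a7, a8, a9, a10, a11, a12⟩)
  · obtain ⟨z1, z2, z3, z4⟩ := (zse_iff ..).1 hz
    exact h ⟨z1, z2, z3, z4, hl, hn⟩
  · exact h ⟨(pt_iff ..).2 (hp q).1, (pt_iff ..).2 (hp q).2⟩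
  · let f' : Fin D.length → Fin A.length := fun i => ⟨_, a5.2 i i.2⟩
    let g' : Fin E.length → Fin B.length := fun i => ⟨_, a6.2 i i.2⟩
    obtain ⟨b1, b2, b3, b4, b5⟩ := (h1_iff (f' := f') (fun _ => rfl) fun _ => rfl).1 a7
    obtain ⟨c1, c2, c3, c4, c5⟩ := (h1_iff (f' := g') (fun _ => rfl) fun _ => rfl).1 a8
    obtain ⟨d1, d2⟩ := (h3_iff (f' := f') (g' := g') (fun _ => rfl) fun _ => rfl).1 a11
    have hb : Blk (sq A) (sq B) (zM _ _ r) (zM _ _ s) q f' g' :=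
      ⟨b1, c1, b2 ▸ ⟨e, a3, b3⟩, c2 ▸ ⟨e', a4, c3⟩, _, _, c, ⟨b4, c4,
        (h2_iff (fun _ => rfl) fun _ => rfl).1 a9, (h2_iff (fun _ => rfl) fun _ => rfl).1 a10⟩,
        b5, c5⟩
    have ht : zM D.length E.length t = (zM _ _ r).submatrix f' g' := by
      rw [zM, d1, d2]; rfl
    have k1 := h1 _ _ _ _ _ _ _ _ l q f' g' hz a1 a2 a5.1 a6.1 hb hr
    obtain ⟨k, rfl⟩ := a2
    have k2 := zse_blk hz hb
    rw [← b2, ← c2, ← ht] at k1 k2
    exact (hc D E t _ k a5.1 a6.1 ⟨e, a3, b3⟩ ⟨e', a4, c3⟩ k2).2 ⟨w, a12⟩ k1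

theorem complete (h2 : B2) (hc : Chk chk) {A B : LL} (r s : LL × LL) (l : ℕ)
    (hr : ¬ SSE (sq A) (sq B)) : ∃ d, Ref chk A B (r, s, l) d := by
  by_contra h
  simp only [Ref, not_exists, not_or, not_not] at h
  obtain ⟨z1, z2, z3, z4, hl, hn⟩ := (h default).1
  have hz := (zse_iff ..).2 ⟨z1, z2, z3, z4⟩
  refine hr (h2 _ _ _ _ _ _ l hz hl hn (fun i => ?_) fun q a b f g a1 a2 ha hb hk => ?_).sse
  · have := (h ((i, default), default)).2.1
    exact ⟨(pt_iff ..).1 this.1, (pt_iff ..).1 this.2⟩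
  by_contra hx
  obtain ⟨k, rfl⟩ := (Nat.dvd_factorial a1 a2).trans hn
  have k2 := zse_blk hz hk
  obtain ⟨b1, c1, ⟨e, a3, b3⟩, ⟨e', a4, c3⟩, x, y, c, ⟨b4, c4, l3, l4⟩, b5, c5⟩ := hk
  obtain ⟨D, rfl, b2⟩ : ∃ D : LL, D.length = a ∧ toM a a D = (sq A ^ q).submatrix f f :=
    ⟨_, ofM_len _, toM_ofM _⟩
  obtain ⟨E, rfl, c2⟩ : ∃ D : LL, D.length = b ∧ toM b b D = (sq B ^ q).submatrix g g :=
    ⟨_, ofM_len _, toM_ofM _⟩
  let t : LL × LL := (ofM ((toM _ _ r.1).submatrix f g), ofM ((toM _ _ r.2).submatrix f g))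
  have ht : zM D.length E.length t = (zM _ _ r).submatrix f g := by
    rw [zM, toM_ofM, toM_ofM]; rfl
  rw [← b2] at b3
  rw [← c2] at c3
  rw [← b2, ← c2, ← ht] at hx k2
  obtain ⟨w, hw⟩ := (hc D E t _ k ha hb ⟨e, a3, b3⟩ ⟨e', a4, c3⟩ k2).1 hx
  have hf := getD_ofFn fun i => (f i : ℕ)
  have hg := getD_ofFn fun i => (g i : ℕ)
  exact (h ((q, c, e, e', w), (D, E, t), _, _, List.ofFn x, List.ofFn y)).2.2
    ⟨a1, Dvd.intro _ rfl, a3, a4, ⟨ha, all_lt.2 fun i => (hf i).trans_lt (f i).2⟩,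
      ⟨hb, all_lt.2 fun i => (hg i).trans_lt (g i).2⟩,
      (h1_iff hf (getD_ofFn x)).2 ⟨b1, b2, b3, b4, b5⟩,
      (h1_iff hg (getD_ofFn y)).2 ⟨c1, c2, c3, c4, c5⟩,
      (h2_iff (getD_ofFn x) (getD_ofFn y)).2 l3, (h2_iff (getD_ofFn y) (getD_ofFn x)).2 l4,
      (h3_iff hf hg).2 ⟨toM_ofM _, toM_ofM _⟩, hw⟩

theorem mem_mats {n m G : ℕ} (X : Matrix (Fin n) (Fin m) ℕ) (h : ∀ i j, X i j ≤ G) :
    ofM X ∈ mats n m G := by
  have := mem_lists (lists m (List.range (G + 1))) (ofM X) (by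
    intro x hx
    obtain ⟨u, rfl⟩ := List.mem_ofFn.1 hx
    have := mem_lists (List.range (G + 1)) (List.ofFn (X u)) (by
      intro x hx
      obtain ⟨v, rfl⟩ := List.mem_ofFn.1 hx
      exact List.mem_range.2 (Nat.lt_succ_of_le (h u v)))
    rwa [List.length_ofFn] at this)
  rwa [ofM_len] at this

theorem exists_code {n m G : ℕ} (R : Matrix (Fin n) (Fin m) ℤ) (h : sz R ≤ G) :
    ∃ r ∈ (mats n m G).product (mats n m G), zM n m r = R := by
  refine ⟨(ofM (R.map Int.toNat), ofM ((-R).map Int.toNat)), List.pair_mem_product.2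
    ⟨mem_mats _ fun i j => ?_, mem_mats _ fun i j => ?_⟩, ?_⟩
  · have := (le_sz R i j).trans h
    simp only [map_apply]
    omega
  · have := (le_sz R i j).trans h
    simp only [map_apply, neg_apply]
    omega
  · rw [zM, toM_ofM, toM_ofM]
    ext i j
    simp [zz_apply]

theorem szL_eq (A : LL) : szL A = sz (zz (sq A)) := by
  simp [szL, sz, sm_eq, zz_apply, toM]

theorem final : B1 → B2 → P1 → BND → Goal := by
  rintro h1 h2 ⟨chk, hc1, hc⟩ ⟨F, hF, hb⟩
  refine decide_of (y := fun p c => chain p.1 c p.2 = true)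
    (n := fun p (c : List Dat) => ∀ k ∈ cands p.1.length p.2.length
      (F (p.1.length + p.2.length + szL p.1 + szL p.2)), ∃ d ∈ c, Ref chk p.1 p.2 k d)
    (D.eq (by fun_prop) (by fun_prop))
    (D.allMem (P.cands (by fun_prop) (by fun_prop) (hF.comp (by fun_prop)))
      (D.exMem (by fun_prop) (D.ref hc1 (by fun_prop) (by fun_prop) (by fun_prop) (by fun_prop))))
    (fun p => (sse_iff _ _).symm.trans ⟨chain_complete, fun ⟨_, h⟩ => chain_sound h⟩)
    fun p => (sse_iff _ _).symm.not.trans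
      ⟨fun h => fin_choice _ _ fun k _ => complete h2 hc k.1 k.2.1 k.2.2 h, ?_⟩
  rintro ⟨c, h⟩ hs
  obtain ⟨R, S, l, a1, a2, a3, a4, a5, a6⟩ := hb _ _ (sq p.1) (sq p.2) hs
  rw [← szL_eq, ← szL_eq] at a6
  obtain ⟨r, hr, rfl⟩ := exists_code R (le_trans (by omega) a6)
  obtain ⟨s, hs, rfl⟩ := exists_code S (le_trans (by omega) a6)
  obtain ⟨d, -, hd⟩ := h (r, s, l) (List.pair_mem_product.2 ⟨hr, List.pair_mem_product.2
    ⟨hs, List.mem_range.2 (by omega)⟩⟩)
  exact sound h1 hc a1 a2 a3 a4 a5 hd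

end Pool.Agent.MP_993212_an.H34
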